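import Pool.Agent.H20.CSat2

namespace Pool.Agent.Results.MP_80cf42_co.Bounded

open H20.CSat

theorem result : ∀ (m : ℕ) (i : Fin m → ℕ), (∀ j, 1 ≤ i j) → (∃ j j', i j ≠ i j') →
    ∃ C : ℕ, ∀ n : ℕ, sat n i ≤ C :=
  fun _ i hp hne => bounded i hp hne

end Pool.Agent.Results.MP_80cf42_co.Bounded
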